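import Mathlib

set_option autoImplicit false
open Set Filter Topology Real Polynomial
open scoped ContDiff

namespace Pool.Agent.H.MP_4c8440_an

noncomputable def g (x : ℝ) : ℝ := x * expNegInvGlue x
noncomputable def g1 (x : ℝ) : ℝ := (1 + x⁻¹) * expNegInvGlue x
noncomputable def g2 (x : ℝ) : ℝ := x⁻¹ ^ 3 * expNegInvGlue x

lemma gc : ContDiff ℝ ∞ g := contDiff_id.mul expNegInvGlue.contDiff

lemma dg (x : ℝ) : HasDerivAt g (g1 x) x := by
  have := expNegInvGlue.hasDerivAt_polynomial_eval_inv_mul 1 x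
  simp only [eval_one, one_mul, derivative_one, sub_zero, mul_one, eval_pow, eval_X] at this
  refine ((hasDerivAt_id x).mul this).congr_deriv ?_
  by_cases h : x = 0
  · simp [g1, h]
  · simp only [g1, id]; field_simp

lemma dg1 (x : ℝ) : HasDerivAt g1 (g2 x) x := by
  have := expNegInvGlue.hasDerivAt_polynomial_eval_inv_mul (1 + X) x
  simp only [eval_add, eval_one, eval_X] at this
  exact this.congr_deriv (by simp [g2, pow_succ])

lemma gz {x : ℝ} (h : x ≤ 0) : g x = 0 ∧ g1 x = 0 ∧ g2 x = 0 := by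
  simp [g, g1, g2, expNegInvGlue.zero_of_nonpos h]

lemma gp {x : ℝ} (h : 0 < x) : 0 < g x ∧ 0 < g1 x ∧ 0 < g2 x ∧ g x ≤ x * g1 x ∧ x - 1 ≤ g x := by
  have := expNegInvGlue.pos_of_pos h
  refine ⟨mul_pos h this, by unfold g1; positivity, by unfold g2; positivity, ?_, ?_⟩
  · rw [g, g1]; gcongr; exact le_mul_of_one_le_left this.le (by simp [h.le])
  · rw [g, expNegInvGlue, if_neg h.not_ge]
    have := mul_le_mul_of_nonneg_left (add_one_le_exp (-x⁻¹)) h.le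
    rw [mul_add, mul_neg, mul_inv_cancel₀ h.ne'] at this
    linarith

lemma gn (x : ℝ) : 0 ≤ g x ∧ 0 ≤ g1 x ∧ 0 ≤ g2 x ∧ x - 1 ≤ g x := by
  rcases le_or_gt x 0 with h | h
  · simp [gz h]; linarith
  · exact ⟨(gp h).1.le, (gp h).2.1.le, (gp h).2.2.1.le, (gp h).2.2.2.2⟩

lemma gconv : ConvexOn ℝ univ g := by
  have e : deriv g = g1 := funext fun x => (dg x).deriv
  refine convexOn_of_deriv2_nonneg' convex_univ (fun x _ => (dg x).differentiableAt.differentiableWithinAt)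
    (fun x _ => e ▸ (dg1 x).differentiableAt.differentiableWithinAt) fun x _ => ?_
  simp [e, (dg1 x).deriv, (gn x).2.2.1]

lemma gmono : Monotone g := monotone_of_deriv_nonneg (fun x => (dg x).differentiableAt)
  fun x => (dg x).deriv ▸ (gn x).2.1

/-- the defining function in real coordinates -/
noncomputable def r (β x y T : ℝ) : ℝ :=
  -(x * cos (β * log T) + y * sin (β * log T)) + g (x ^ 2 + y ^ 2 - 1) + g (T + T⁻¹ - 4) ^ 2

noncomputable def r1 (β x y T a b τ : ℝ) : ℝ :=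
  -(a * cos (β * log T) + b * sin (β * log T)) - β * (τ / T) * (y * cos (β * log T) - x * sin (β * log T)) +
    g1 (x ^ 2 + y ^ 2 - 1) * (2 * (x * a + y * b)) + 2 * g (T + T⁻¹ - 4) * g1 (T + T⁻¹ - 4) * (τ - τ / T ^ 2)

noncomputable def r2 (β x y T a b τ κ : ℝ) : ℝ :=
  -2 * β * (τ / T) * (b * cos (β * log T) - a * sin (β * log T)) +
    (β * (τ / T)) ^ 2 * (x * cos (β * log T) + y * sin (β * log T)) -
    β * (κ / T - (τ / T) ^ 2) * (y * cos (β * log T) - x * sin (β * log T)) +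
    g2 (x ^ 2 + y ^ 2 - 1) * (2 * (x * a + y * b)) ^ 2 + g1 (x ^ 2 + y ^ 2 - 1) * (2 * (a ^ 2 + b ^ 2)) +
    2 * (g1 (T + T⁻¹ - 4) * (τ - τ / T ^ 2)) ^ 2 + 2 * g (T + T⁻¹ - 4) * g2 (T + T⁻¹ - 4) * (τ - τ / T ^ 2) ^ 2 +
    2 * g (T + T⁻¹ - 4) * g1 (T + T⁻¹ - 4) * ((T + T⁻¹) * (τ / T) ^ 2 + (T - T⁻¹) * (κ / T - (τ / T) ^ 2))

lemma dr (β : ℝ) {x y T : ℝ → ℝ} {a b τ t : ℝ} (hx : HasDerivAt x a t) (hy : HasDerivAt y b t)
    (hT : HasDerivAt T τ t) (h : T t ≠ 0) :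
    HasDerivAt (fun t => r β (x t) (y t) (T t)) (r1 β (x t) (y t) (T t) a b τ) t := by
  have l := (hT.log h).const_mul β
  have m := (dg _).comp t ((hT.add (hT.inv h)).sub_const 4)
  refine ((((hx.mul l.cos).add (hy.mul l.sin)).neg.add
    ((dg _).comp t (((hx.pow 2).add (hy.pow 2)).sub_const 1))).add (m.pow 2)).congr_deriv ?_
  simp only [r1, Function.comp, Pi.add_apply, Pi.inv_apply, Pi.pow_apply]
  norm_num; ring

lemma dr1 (β : ℝ) {x y T τ : ℝ → ℝ} {a b κ t : ℝ} (hx : HasDerivAt x a t) (hy : HasDerivAt y b t)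
    (hT : HasDerivAt T (τ t) t) (hτ : HasDerivAt τ κ t) (h : T t ≠ 0) :
    HasDerivAt (fun t => r1 β (x t) (y t) (T t) a b (τ t)) (r2 β (x t) (y t) (T t) a b (τ t) κ) t := by
  have l := (hT.log h).const_mul β
  have M := (hT.add (hT.inv h)).sub_const 4
  have N := ((hx.pow 2).add (hy.pow 2)).sub_const 1
  refine ((((((l.cos.const_mul a).add (l.sin.const_mul b)).neg.sub (((hτ.div hT h).const_mul β).mul
    ((hy.mul l.cos).sub (hx.mul l.sin)))).add (((dg1 _).comp t N).mul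
    (((hx.mul_const a).add (hy.mul_const b)).const_mul 2))).add (((((dg _).comp t M).const_mul 2).mul
    ((dg1 _).comp t M)).mul (hτ.sub (hτ.div (hT.pow 2) (pow_ne_zero 2 h)))))).congr_deriv ?_
  simp only [r2, Function.comp, Pi.add_apply, Pi.inv_apply, Pi.pow_apply, Pi.mul_apply, Pi.sub_apply, Pi.div_apply]
  norm_num; field_simp; ring

lemma alg {β ξ η A B p q G1 G2 χ μ m n : ℝ} (h1 : 0 ≤ G2) (h2 : 0 ≤ χ) (h3 : 0 ≤ μ * n) (h4 : 0 ≤ G1)
    (h0 : μ = 0 → m = 0) (e : ξ = χ + μ ^ 2) (t1 : -A - β * p * η + G1 * (2 * (ξ * A + η * B)) + 2 * μ * m * p = 0)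
    (t2 : B - β * q * η + G1 * (2 * (η * A - ξ * B)) + 2 * μ * m * q = 0) :
    0 ≤ -2 * β * (p * B + q * A) + β ^ 2 * (p ^ 2 + q ^ 2) * ξ + 4 * G2 * (ξ ^ 2 + η ^ 2) * (A ^ 2 + B ^ 2) +
      4 * G1 * (A ^ 2 + B ^ 2) + 2 * (m ^ 2 + μ * n) * (p ^ 2 + q ^ 2) := by
  rcases (add_nonneg (sq_nonneg ξ) (sq_nonneg η)).eq_or_lt with k | k
  · obtain rfl : ξ = 0 := by nlinarith
    obtain rfl : η = 0 := by nlinarith
    obtain rfl : μ = 0 := by nlinarith
    obtain rfl : A = 0 := by linarith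
    obtain rfl : B = 0 := by linarith
    simp; positivity
  · refine le_of_mul_le_mul_left ?_ (pow_pos k 2)
    set N := ξ ^ 2 + η ^ 2 with hN
    set U := ξ * A + η * B
    set V := ξ * B - η * A
    have : N ^ 2 * (-2 * β * (p * B + q * A) + β ^ 2 * (p ^ 2 + q ^ 2) * ξ + 4 * G2 * N * (A ^ 2 + B ^ 2) +
        4 * G1 * (A ^ 2 + B ^ 2) + 2 * (m ^ 2 + μ * n) * (p ^ 2 + q ^ 2)) =
        χ * ((U - β * N * q) ^ 2 + (V - β * N * p) ^ 2) +
        ((μ * (U - β * N * q) - m * N * p) ^ 2 + (μ * (V - β * N * p) + m * N * q) ^ 2) +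
        ((μ * U - m * N * p) ^ 2 + (μ * V + m * N * q) ^ 2) + (4 * N ^ 2 * G2 + χ) * (U ^ 2 + V ^ 2) +
        2 * (μ * n) * N ^ 2 * (p ^ 2 + q ^ 2) := by
      have e' : χ = ξ - μ ^ 2 := by linarith
      simp only [hN, U, V, e']
      linear_combination (2 * (ξ ^ 2 + η ^ 2) * (ξ * A + η * B)) * t1 - (2 * (ξ ^ 2 + η ^ 2) * (ξ * B - η * A)) * t2
    rw [this, mul_zero]; positivity

lemma levi {β x y T a b τ σ κ : ℝ} (T0 : 0 < T) (e : r β x y T = 0) (t1 : r1 β x y T a b τ = 0)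
    (t2 : r1 β x y T (-b) a σ = 0) (k : τ ^ 2 + σ ^ 2 = 2 * κ * T) :
    0 ≤ r2 β x y T a b τ κ + r2 β x y T (-b) a σ κ := by
  simp only [r, r1, r2] at *
  have cs := cos_sq_add_sin_sq (β * log T)
  generalize cos (β * log T) = C at *
  generalize sin (β * log T) = S at *
  have n1 := gn (x ^ 2 + y ^ 2 - 1)
  have n2 := gn (T + T⁻¹ - 4)
  have z : g (T + T⁻¹ - 4) = 0 → g1 (T + T⁻¹ - 4) * (T - T⁻¹) = 0 := fun h => by
    rw [(gz (not_lt.1 fun c => (gp c).1.ne' h)).2.1, zero_mul]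
  generalize g (x ^ 2 + y ^ 2 - 1) = χ at *
  generalize g1 (x ^ 2 + y ^ 2 - 1) = G1 at *
  generalize g2 (x ^ 2 + y ^ 2 - 1) = G2 at *
  generalize g (T + T⁻¹ - 4) = μ at *
  generalize g1 (T + T⁻¹ - 4) = μ1 at *
  generalize g2 (T + T⁻¹ - 4) = μ2 at *
  obtain ⟨p, rfl⟩ : ∃ p, τ = p * T := ⟨τ / T, by field_simp⟩
  obtain ⟨q, rfl⟩ : ∃ q, σ = q * T := ⟨σ / T, by field_simp⟩
  obtain rfl : κ = (p ^ 2 + q ^ 2) * T / 2 := by field_simp; nlinarith
  have e1 (p : ℝ) : p * T / T = p := by field_simp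
  have e2 (p : ℝ) : p * T - p * T / T ^ 2 = p * (T - T⁻¹) := by field_simp
  have e3 : (p ^ 2 + q ^ 2) * T / 2 / T = (p ^ 2 + q ^ 2) / 2 := by field_simp
  simp only [e1, e2, e3] at *
  have := alg (β := β) (ξ := x * C + y * S) (η := y * C - x * S) (A := a * C + b * S) (B := b * C - a * S) (p := p)
    (q := q) (m := μ1 * (T - T⁻¹)) (n := μ2 * (T - T⁻¹) ^ 2 + μ1 * (T + T⁻¹)) n1.2.2.1 n1.1
    (mul_nonneg n2.1 (by have := n2.2.1; have := n2.2.2.1; positivity)) n1.2.1 z (by linarith)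
    (by linear_combination t1 + 2 * G1 * (x * a + y * b) * cs)
    (by linear_combination t2 + 2 * G1 * (y * a - x * b) * cs)
  convert this using 1
  linear_combination (-4 * G1 * (a ^ 2 + b ^ 2) - 4 * G2 * (x ^ 2 + y ^ 2) * (a ^ 2 + b ^ 2) * (C ^ 2 + S ^ 2 + 1)) * cs

lemma grad {β x y T : ℝ} (T0 : 0 < T) (e : r β x y T = 0) (h : ∀ a b, r1 β x y T a b 0 = 0)
    (h2 : r1 β x y T 0 0 (2 * T) = 0) : False := by
  have h1 := h (cos (β * log T)) (sin (β * log T))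
  have h3 := h (-sin (β * log T)) (cos (β * log T))
  simp only [r, r1] at *
  have cs := cos_sq_add_sin_sq (β * log T)
  generalize cos (β * log T) = C at *
  generalize sin (β * log T) = S at *
  have a1 : 2 * g1 (x ^ 2 + y ^ 2 - 1) * (x * C + y * S) = 1 := by linear_combination h1 + cs
  have a2 : y * C - x * S = 0 := by linear_combination 2 * (x * C + y * S) * h3 / 2 - (y * C - x * S) * a1
  have N : x ^ 2 + y ^ 2 = (x * C + y * S) ^ 2 := by linear_combination (y * C - x * S) * a2 - (x ^ 2 + y ^ 2) * cs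
  have x0 : 0 < x ^ 2 + y ^ 2 - 1 := not_le.1 fun c => by simp [(gz c).2.1] at a1
  have m : g (T + T⁻¹ - 4) = 0 := by
    by_contra c
    have M : 0 < T + T⁻¹ - 4 := not_le.1 fun k => c (gz k).1
    rw [a2] at h2
    simp only [zero_mul, mul_zero, add_zero, neg_zero, sub_zero, zero_add, mul_eq_zero, c, (gp M).2.1.ne',
      two_ne_zero, false_or] at h2
    have : T = 1 := by
      field_simp at h2
      nlinarith
    norm_num [this] at M
  have := gp x0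
  rw [m] at e
  have p : 0 < x * C + y * S := by linarith [this.1]
  nlinarith [mul_le_mul_of_nonneg_left this.2.2.2.1 p.le]

end Pool.Agent.H.MP_4c8440_an
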