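import Pool.Agent.H.MP_4c8440_an.A

set_option autoImplicit false
open Set Filter Topology Real Metric
open scoped ContDiff

namespace Pool.Agent.H.MP_4c8440_an

abbrev E := Fin 2 → ℂ

lemma line {F : E → ℝ} {p v : E} (hF : ContDiffAt ℝ 2 F p) {c1 : ℝ → ℝ} {c2 : ℝ}
    (h1 : ∀ᶠ t in 𝓝 (0 : ℝ), HasDerivAt (fun t : ℝ => F (p + t • v)) (c1 t) t) (h2 : HasDerivAt c1 c2 0) :
    fderiv ℝ F p v = c1 0 ∧ iteratedFDeriv ℝ 2 F p ![v, v] = c2 := by
  have l (t : ℝ) : HasDerivAt (fun t : ℝ => p + t • v) v t := by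
    simpa using ((hasDerivAt_id t).smul_const v).const_add p
  have tp : Tendsto (fun t : ℝ => p + t • v) (𝓝 0) (𝓝 p) := Continuous.tendsto' (by fun_prop) _ _ (by simp)
  have e : (fun t : ℝ => fderiv ℝ F (p + t • v) v) =ᶠ[𝓝 0] c1 := by
    filter_upwards [h1, tp.eventually (hF.eventually (by simp))] with t a b
    exact ((b.differentiableAt (by simp)).hasFDerivAt.comp_hasDerivAt t (l t)).unique a
  refine ⟨by simpa using e.self_of_nhds, ?_⟩
  have hd : HasFDerivAt (fderiv ℝ F) (fderiv ℝ (fderiv ℝ F) p) (p + (0 : ℝ) • v) := by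
    simpa using ((hF.fderiv_right (m := 1) (by norm_num)).differentiableAt (by norm_num)).hasFDerivAt
  have := ((hd.comp_hasDerivAt 0 (l 0)).clm_apply (hasDerivAt_const 0 v)).unique (h2.congr_of_eventuallyEq e)
  simpa [iteratedFDeriv_two_apply] using this

def T (p : E) : ℝ := (p 1).re ^ 2 + (p 1).im ^ 2

noncomputable def ρ0 (p : E) : ℝ := r (π / 2) (p 0).re (p 0).im (T p)

noncomputable def ρ (p : E) : ℝ := smoothTransition (20 * T p - 1) * ρ0 p + (1 - smoothTransition (20 * T p - 1))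

lemma cre (i : Fin 2) : ContDiff ℝ ∞ fun p : E => (p i).re := Complex.reCLM.contDiff.comp (contDiff_apply ℝ ℂ i)

lemma cim (i : Fin 2) : ContDiff ℝ ∞ fun p : E => (p i).im := Complex.imCLM.contDiff.comp (contDiff_apply ℝ ℂ i)

lemma Tc : ContDiff ℝ ∞ T := ((cre 1).pow 2).add ((cim 1).pow 2)

lemma ρ0c {p : E} (h : T p ≠ 0) : ContDiffAt ℝ ∞ ρ0 p := by
  have x := (cre 0).contDiffAt (x := p)
  have y := (cim 0).contDiffAt (x := p)
  have t := Tc.contDiffAt (x := p)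
  have l := (contDiffAt_const (c := π / 2)).mul (t.log h)
  exact ((((x.mul l.cos).add (y.mul l.sin)).neg.add (gc.contDiffAt.comp p (((x.pow 2).add (y.pow 2)).sub
    contDiffAt_const))).add ((gc.contDiffAt.comp p ((t.add (t.inv h)).sub contDiffAt_const)).pow 2))

lemma ρc : ContDiff ℝ ∞ ρ := contDiff_iff_contDiffAt.2 fun p => by
  have := Tc
  by_cases h : T p = 0
  · refine (contDiffAt_const (c := 1)).congr_of_eventuallyEq ((Tc.continuous.continuousAt.eventually_lt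
      continuousAt_const (show T p < 1 / 20 by norm_num [h])).mono fun q hq => ?_)
    simp [ρ, smoothTransition.zero_of_nonpos (show 20 * T q - 1 ≤ 0 by linarith)]
  · have := ρ0c h
    unfold ρ; fun_prop

lemma der {p : E} (h : T p ≠ 0) (v : E) :
    fderiv ℝ ρ0 p v = r1 (π / 2) (p 0).re (p 0).im (T p) (v 0).re (v 0).im
      (2 * ((p 1).re * (v 1).re + (p 1).im * (v 1).im)) ∧
    iteratedFDeriv ℝ 2 ρ0 p ![v, v] = r2 (π / 2) (p 0).re (p 0).im (T p) (v 0).re (v 0).im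
      (2 * ((p 1).re * (v 1).re + (p 1).im * (v 1).im)) (2 * ((v 1).re ^ 2 + (v 1).im ^ 2)) := by
  have a (x a t : ℝ) : HasDerivAt (fun t => x + t * a) a t := by
    simpa using ((hasDerivAt_id t).mul_const a).const_add x
  have hT (t : ℝ) : HasDerivAt (fun t : ℝ => ((p 1).re + t * (v 1).re) ^ 2 + ((p 1).im + t * (v 1).im) ^ 2)
      (2 * (((p 1).re + t * (v 1).re) * (v 1).re + ((p 1).im + t * (v 1).im) * (v 1).im)) t :=
    (((a _ _ t).pow 2).add ((a _ _ t).pow 2)).congr_deriv (by simp; ring)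
  have := line (v := v) ((ρ0c h).of_le (WithTop.coe_le_coe.2 le_top)) (((hT 0).continuousAt.eventually_ne
    (by simpa [T] using h)).mono fun t ht => by
      simpa [ρ0, T] using dr (π / 2) (a (p 0).re (v 0).re t) (a (p 0).im (v 0).im t) (hT t) ht)
    (dr1 (π / 2) (a (p 0).re (v 0).re 0) (a (p 0).im (v 0).im 0) (hT 0) (κ := 2 * ((v 1).re ^ 2 + (v 1).im ^ 2))
      (((((a _ _ 0).mul_const _).add ((a _ _ 0).mul_const _)).const_mul 2).congr_deriv (by ring)) (by simpa [T] using h))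
  simpa [T] using this

lemma bd {β x y T : ℝ} (h : r β x y T ≤ 0) : x ^ 2 + y ^ 2 ≤ 4 ∧ T + T⁻¹ ≤ 7 ∧
    g (x ^ 2 + y ^ 2 - 1) ≤ x * cos (β * log T) + y * sin (β * log T) := by
  rw [r] at h
  have cs := cos_sq_add_sin_sq (β * log T)
  generalize cos (β * log T) = C at *
  generalize sin (β * log T) = S at *
  have n1 := gn (x ^ 2 + y ^ 2 - 1)
  have n2 := gn (T + T⁻¹ - 4)
  have : (x * C + y * S) ^ 2 ≤ x ^ 2 + y ^ 2 := by nlinarith [sq_nonneg (y * C - x * S)]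
  have := sq_nonneg (g (T + T⁻¹ - 4))
  have k : x * C + y * S ≤ 2 := by nlinarith
  refine ⟨by linarith, ?_, by linarith⟩
  nlinarith

lemma T7 {T : ℝ} (h0 : 0 < T) (h : T + T⁻¹ ≤ 7) : 1 / 7 ≤ T ∧ T ≤ 7 := by
  have := inv_pos.2 h0
  refine ⟨?_, by linarith⟩
  rw [one_div, inv_le_comm₀ (by norm_num) h0]; linarith

def Ω : Set E := {p | ρ p < 0}

lemma Ωo : IsOpen Ω := isOpen_lt ρc.continuous continuous_const

lemma ρe {p : E} (h : 1 / 10 ≤ T p) : ρ p = ρ0 p := by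
  simp [ρ, smoothTransition.one_of_one_le (show 1 ≤ 20 * T p - 1 by linarith)]

lemma mem {p : E} : p ∈ Ω ↔ 0 < T p ∧ ρ0 p < 0 := by
  refine ⟨fun h => ?_, fun ⟨a, b⟩ => (ρe (by linarith [(T7 a (bd b.le).2.1).1])).trans_lt b⟩
  have h : ρ p < 0 := h
  rw [ρ] at h
  have a := smoothTransition.nonneg (20 * T p - 1)
  have b := smoothTransition.le_one (20 * T p - 1)
  refine ⟨not_le.1 fun c => ?_, not_le.1 fun c => by nlinarith⟩
  rw [smoothTransition.zero_of_nonpos (by linarith)] at h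
  linarith

lemma fr {p : E} (h : p ∈ frontier Ω) : 0 < T p ∧ ρ0 p = 0 ∧ ρ =ᶠ[𝓝 p] ρ0 := by
  have t : 1 / 7 ≤ T p := closure_minimal (t := {p | 1 / 7 ≤ T p}) (fun q hq => (T7 (mem.1 hq).1 (bd (mem.1 hq).2.le).2.1).1)
    (isClosed_le continuous_const Tc.continuous) h.1
  have e : ρ p = 0 := frontier_lt_subset_eq ρc.continuous continuous_const h
  exact ⟨by linarith, ρe (show 1 / 10 ≤ T p by linarith) ▸ e, (continuousAt_const.eventually_lt
    Tc.continuous.continuousAt (show 1 / 10 < T p by linarith)).mono fun q hq => ρe hq.le⟩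

lemma grad' (p : E) (h : p ∈ frontier Ω) : fderiv ℝ ρ p ≠ 0 := fun k => by
  obtain ⟨a, b, c⟩ := fr h
  rw [c.fderiv_eq] at k
  refine grad a b (fun x y => ?_) ?_
  · simpa [k] using (der a.ne' ![⟨x, y⟩, 0]).1.symm
  · simpa [k, T, sq] using (der a.ne' ![0, p 1]).1.symm

lemma levi' (p : E) (h : p ∈ frontier Ω) (v : E) (t1 : fderiv ℝ ρ p v = 0) (t2 : fderiv ℝ ρ p (Complex.I • v) = 0) :
    0 ≤ iteratedFDeriv ℝ 2 ρ p ![v, v] + iteratedFDeriv ℝ 2 ρ p ![Complex.I • v, Complex.I • v] := by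
  obtain ⟨a, b, c⟩ := fr h
  rw [c.fderiv_eq, (der a.ne' _).1] at t1 t2
  rw [(c.iteratedFDeriv ℝ 2).self_of_nhds, (der a.ne' _).2, (der a.ne' _).2]
  simp only [Pi.smul_apply, smul_eq_mul, Complex.I_mul_re, Complex.I_mul_im, neg_sq, add_comm ((v 1).im ^ 2)] at *
  exact levi a b t1 t2 (by rw [T]; ring)

lemma Ωb : Bornology.IsBounded Ω := isBounded_iff_forall_norm_le.2 ⟨3, fun p hp => by
  have a := bd (mem.1 hp).2.le
  have b := (T7 (mem.1 hp).1 a.2.1).2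
  rw [T] at b
  refine (pi_norm_le_iff_of_nonneg (by norm_num)).2 (Fin.forall_fin_two.2 ⟨?_, ?_⟩) <;>
  · rw [← sq_le_sq₀ (norm_nonneg _) (by norm_num), Complex.sq_norm, Complex.normSq_apply]; linarith⟩

noncomputable def Φ (q : (ℂ × ℝ) × ℝ) : E :=
  ![q.1.1 * Complex.exp ((π / 2 * q.1.2 : ℝ) * Complex.I), rexp (q.1.2 / 2) * Complex.exp (q.2 * Complex.I)]

lemma ΦT (q : (ℂ × ℝ) × ℝ) : T (Φ q) = rexp q.1.2 := by
  simp only [T, Φ, Matrix.cons_val_one, Matrix.cons_val_zero, Complex.re_ofReal_mul, Complex.im_ofReal_mul,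
    Complex.exp_ofReal_mul_I_re, Complex.exp_ofReal_mul_I_im, mul_pow, ← mul_add, cos_sq_add_sin_sq, mul_one]
  rw [← exp_nat_mul]; congr 1; push_cast; ring

lemma Φρ (q : (ℂ × ℝ) × ℝ) : ρ0 (Φ q) = -q.1.1.re + g (‖q.1.1‖ ^ 2 - 1) + g (rexp q.1.2 + rexp (-q.1.2) - 4) ^ 2 := by
  have cs := cos_sq_add_sin_sq (π / 2 * q.1.2)
  rw [ρ0, ΦT, r, log_exp, exp_neg, Complex.sq_norm, Complex.normSq_apply]
  simp only [Φ, Matrix.cons_val_zero, Complex.mul_re, Complex.mul_im, Complex.exp_ofReal_mul_I_re,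
    Complex.exp_ofReal_mul_I_im]
  congr 3
  · linear_combination q.1.1.re * cs
  · linear_combination (q.1.1.re ^ 2 + q.1.1.im ^ 2) * cs

lemma Φs {p : E} (h : p ∈ Ω) : ∃ q, Φ q = p := by
  have t := (mem.1 h).1
  refine ⟨((p 0 * Complex.exp (-((π / 2 * log (T p) : ℝ) * Complex.I)), log (T p)), (p 1).arg), ?_⟩
  ext i
  fin_cases i
  · simp [Φ, mul_assoc, ← Complex.exp_add]
  · have : rexp (log (T p) / 2) = ‖p 1‖ := by
      rw [← sq_eq_sq₀ (exp_pos _).le (norm_nonneg _), ← exp_nat_mul, Complex.sq_norm, Complex.normSq_apply]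
      push_cast
      rw [mul_div_cancel₀ _ two_ne_zero, exp_log t, T]; ring
    simp [Φ, this, -Complex.ofReal_exp]

lemma cc {V : Type} [AddCommMonoid V] [Module ℝ V] {f : V → ℝ} (h : ConvexOn ℝ univ f) :
    ConvexOn ℝ univ fun x => g (f x) := ⟨convex_univ, fun _ _ _ _ _ _ ha hb e =>
  (gmono (h.2 trivial trivial ha hb e)).trans (gconv.2 trivial trivial ha hb e)⟩

lemma Ωc : IsConnected Ω := by
  have c1 : ConvexOn ℝ univ fun q : ℂ × ℝ => -q.1.re :=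
    ((Complex.reLm.comp (LinearMap.fst ℝ ℂ ℝ)).concaveOn convex_univ).neg
  have c2 : ConvexOn ℝ univ fun q : ℂ × ℝ => g (‖q.1‖ ^ 2 - 1) := cc
    ((((convexOn_univ_norm.comp_linearMap (LinearMap.fst ℝ ℂ ℝ)).pow (fun _ _ => norm_nonneg _) 2)).sub
      (concaveOn_const 1 convex_univ))
  have c3 : ConvexOn ℝ univ fun q : ℂ × ℝ => g (rexp q.2 + rexp (-q.2) - 4) := cc
    (((convexOn_exp.comp_linearMap (LinearMap.snd ℝ ℂ ℝ)).add
      (convexOn_exp.comp_linearMap (-LinearMap.snd ℝ ℂ ℝ))).sub (concaveOn_const 4 convex_univ))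
  have := (((c1.add c2).add (c3.pow (fun _ _ => (gn _).1) 2)).convex_lt 0).prod (convex_univ (E := ℝ))
  have cΦ : Continuous Φ := by unfold Φ; fun_prop
  convert (this.isConnected ⟨((1, 0), 0), by simp [gz, show (1 : ℝ) + 1 - 4 ≤ 0 by norm_num]⟩).image Φ
    cΦ.continuousOn using 1
  ext p
  refine ⟨fun h => ?_, ?_⟩
  · obtain ⟨q, rfl⟩ := Φs h
    exact ⟨q, ⟨⟨trivial, (Φρ q).symm.trans_lt (mem.1 h).2⟩, trivial⟩, rfl⟩
  · rintro ⟨q, hq, rfl⟩
    exact mem.2 ⟨ΦT q ▸ exp_pos _, Φρ q ▸ hq.1.2⟩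

end Pool.Agent.H.MP_4c8440_an
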