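import Pool.Agent.H.MP_4c8440_an.B
import Pool.Agent.H.MP_c109b8_an.A

set_option autoImplicit false
open Set Filter Topology Real Metric
open Complex (I)

namespace Pool.Agent.H.MP_4c8440_an

lemma ξp {p : E} (h : p ∈ Ω) : 0 < (p 0).re * cos (π / 2 * log (T p)) + (p 0).im * sin (π / 2 * log (T p)) := by
  have := (mem.1 h).2
  rw [ρ0, r] at this
  linarith [(gn ((p 0).re ^ 2 + (p 0).im ^ 2 - 1)).1, sq_nonneg (g (T p + (T p)⁻¹ - 4))]

lemma z0 {p : E} (h : p ∈ Ω) : p 0 ≠ 0 := fun e => by simpa [e] using ξp h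

def V : Set E := {p ∈ Ω | (Complex.Gamma (2 - (p 0)⁻¹))⁻¹ = 0}

lemma Vm {z : ℂ} : (Complex.Gamma (2 - z⁻¹))⁻¹ = 0 ↔ ∃ m : ℕ, z = ((m + 2 : ℝ)⁻¹ : ℝ) := by
  rw [inv_eq_zero, Complex.Gamma_eq_zero_iff]
  refine exists_congr fun m => ?_
  push_cast
  rw [← inv_eq_iff_eq_inv]
  constructor <;> intro h <;> linear_combination -h

lemma Vloc (p : E) (hp : p ∈ Ω) : ∃ r > 0, ball p r ⊆ Ω ∧ ∃ g : E → ℂ, DifferentiableOn ℂ g (ball p r) ∧
    (∃ z ∈ ball p r, g z ≠ 0) ∧ ∀ z ∈ ball p r, (z ∈ V ↔ g z = 0) := by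
  obtain ⟨r, r0, h⟩ := Metric.isOpen_iff.1 Ωo p hp
  refine ⟨r, r0, h, fun p => (Complex.Gamma (2 - (p 0)⁻¹))⁻¹, fun q hq => (Complex.differentiable_one_div_Gamma _).comp_differentiableWithinAt q
    (DifferentiableAt.differentiableWithinAt (by have := z0 (h hq); fun_prop (disch := assumption))), ?_,
    fun z hz => and_iff_right (h hz)⟩
  by_cases c : (p 0).im = 0
  · refine ⟨p + ![(r / 2 : ℝ) * I, 0], ?_, fun e => ?_⟩
    · rw [mem_ball_iff_norm, add_sub_cancel_left, pi_norm_lt_iff r0]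
      simpa [r0, abs_of_pos r0]
    · obtain ⟨m, e⟩ := Vm.1 e
      have := congrArg Complex.im e
      rw [Complex.ofReal_im] at this
      simp [c, r0.ne'] at this
  · exact ⟨p, mem_ball_self r0, fun e => by obtain ⟨m, e⟩ := Vm.1 e; exact c (e ▸ Complex.ofReal_im _)⟩

def O : Set E := {p | (p 0).re ^ 2 + (p 0).im ^ 2 < 1 ∧ T p ^ 2 + 1 < 4 * T p}

lemma Oo : IsOpen O := by
  have := Tc.continuous
  exact IsOpen.and (isOpen_lt (by fun_prop) continuous_const) (isOpen_lt (by fun_prop) (by fun_prop))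

lemma VO : closure V ⊆ O := by
  refine (closure_minimal (t := {p | (p 0).re ^ 2 + (p 0).im ^ 2 ≤ 1 / 4} ∩ T ⁻¹' Icc (1 / 3) 3) (fun p hp => ?_)
    ((isClosed_le (by fun_prop) continuous_const).inter (isClosed_Icc.preimage Tc.continuous))).trans
    fun p hp => ⟨hp.1.trans_lt (by norm_num), by nlinarith [hp.2.1, hp.2.2]⟩
  obtain ⟨m, e⟩ := Vm.1 hp.2
  have x := ξp hp.1
  have t0 := (mem.1 hp.1).1
  have t := T7 t0 (bd (mem.1 hp.1).2.le).2.1
  rw [e, Complex.ofReal_re, Complex.ofReal_im, zero_mul, add_zero, mul_pos_iff_of_pos_left (by positivity),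
    ← cos_abs, abs_mul, abs_of_pos (half_pos pi_pos)] at x
  have e1 := exp_one_gt_d9
  have e2 := exp_one_lt_d9
  have e3 : 7 ≤ rexp 3 := by rw [show (3 : ℝ) = 1 + 1 + 1 by norm_num, exp_add, exp_add]; nlinarith
  have l : |log (T p)| ≤ 3 := abs_le.2 ⟨(le_log_iff_exp_le t0).2 (by
    rw [exp_neg]; exact (inv_anti₀ (by norm_num) e3).trans (by linarith)), (log_le_iff_le_exp t0).2 (by linarith)⟩
  have l1 := abs_lt.1 (not_le.1 fun c : 1 ≤ |log (T p)| => x.not_ge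
    (cos_nonpos_of_pi_div_two_le_of_le (by nlinarith [pi_pos]) (by nlinarith [pi_pos])))
  refine ⟨?_, ?_, ((log_lt_iff_lt_exp t0).1 l1.2).le.trans (by linarith)⟩
  · rw [mem_ofPred_eq, e, Complex.ofReal_re, Complex.ofReal_im]
    have : ((m + 2 : ℝ)⁻¹) ^ 2 ≤ 2⁻¹ ^ 2 := by gcongr; linarith [m.cast_nonneg (α := ℝ)]
    linarith
  · refine le_trans ?_ ((lt_log_iff_exp_lt t0).1 l1.1).le
    rw [exp_neg, one_div]; exact inv_anti₀ (exp_pos _) (by linarith)

lemma ΦΩ {q : (ℂ × ℝ) × ℝ} (h : 0 < q.1.1.re) (h1 : ‖q.1.1‖ ^ 2 ≤ 1) (h2 : rexp q.1.2 ^ 2 + 1 ≤ 4 * rexp q.1.2) :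
    Φ q ∈ Ω := mem.2 ⟨ΦT q ▸ exp_pos _, by
  have := exp_pos q.1.2
  rw [Φρ, (gz (by linarith)).1, (gz (by rw [exp_neg, sub_nonpos]; field_simp; linarith)).1]; simpa⟩

lemma ΦO {q : (ℂ × ℝ) × ℝ} : Φ q ∈ O ↔ ‖q.1.1‖ ^ 2 < 1 ∧ rexp q.1.2 ^ 2 + 1 < 4 * rexp q.1.2 := by
  rw [O, mem_ofPred_eq, ΦT, sq, sq (Complex.im _), ← Complex.normSq_apply, ← Complex.sq_norm]
  simp [Φ, -Complex.ofReal_mul]

lemma shilov {f : E → ℂ} (df : DifferentiableOn ℂ f Ω) {M m : ℝ} (hM : ∀ p ∈ Ω, ‖f p‖ ≤ M)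
    (hm : ∀ p ∈ Ω, p ∉ O → ‖f p‖ ≤ m) (p : E) (hp : p ∈ Ω) (ho : p ∈ O) : ‖f p‖ ≤ max m 0 := by
  obtain ⟨⟨⟨ζ, s⟩, θ⟩, h, rfl⟩ : ∃ q, 0 < q.1.1.re ∧ Φ q = p := by
    obtain ⟨q, rfl⟩ := Φs hp
    have := (mem.1 hp).2
    rw [Φρ] at this
    exact ⟨q, by linarith [(gn (‖q.1.1‖ ^ 2 - 1)).1, sq_nonneg (g (rexp q.1.2 + rexp (-q.1.2) - 4))], rfl⟩
  have n0 : 0 < ‖ζ‖ := norm_pos_iff.2 fun e => by simp [e] at h
  set γ : ℂ → E := fun l => Φ ((rexp (-(π * l.im)) * ζ, s + 2 * l.re), θ + l.im)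
  have dγ : Differentiable ℂ γ := by
    have : γ = fun l => ![Φ ((ζ, s), θ) 0 * Complex.exp (π * I * l), Φ ((ζ, s), θ) 1 * Complex.exp l] := by
      ext l i
      conv_rhs => rw [← Complex.re_add_im l]
      fin_cases i
      · simp only [γ, Φ]; simp only [Fin.zero_eta, Matrix.cons_val_zero, Complex.ofReal_exp, mul_comm _ ζ, mul_assoc,
          ← Complex.exp_add]
        congr 2; push_cast; linear_combination -π * l.im * Complex.I_sq
      · simp only [γ, Φ]; simp only [Fin.mk_one, Matrix.cons_val_one, Matrix.cons_val_zero, Complex.ofReal_exp,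
          ← Complex.exp_add]
        congr 1; push_cast; ring
    rw [this]
    refine differentiable_pi.2 (Fin.forall_fin_two.2 ⟨?_, ?_⟩) <;> simp <;> fun_prop
  have nn (l : ℂ) : ‖rexp (-(π * l.im)) * ζ‖ = rexp (-(π * l.im)) * ‖ζ‖ := by
    rw [norm_mul, Complex.norm_real, norm_of_nonneg (exp_pos _).le]
  have lo (l : ℂ) (a : ‖rexp (-(π * l.im)) * ζ‖ ^ 2 ≤ 1) : -l.im ≤ ‖ζ‖⁻¹ := by
    rw [sq_le_one_iff₀ (norm_nonneg _), nn, ← le_div_iff₀ n0, one_div] at a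
    have := add_one_le_exp (-(π * l.im))
    have := inv_pos.2 n0
    by_contra! c
    nlinarith [pi_gt_three]
  have key (n : ℕ) : ‖f (γ 0)‖ ≤ max (max m 0 * rexp ((n + 1 : ℝ)⁻¹ * ‖ζ‖⁻¹)) (M * rexp (-(n + 1))) := by
    have n1 : (0 : ℝ) < n + 1 := by positivity
    set U := γ ⁻¹' O ∩ {l | l.im < (n + 1) ^ 2}
    have cl : closure U ⊆ {l | γ l ∈ Ω ∧ -l.im ≤ ‖ζ‖⁻¹ ∧ l.im ≤ (n + 1) ^ 2} := fun l hl => by
      have := closure_minimal (t := {l : ℂ | ‖rexp (-(π * l.im)) * ζ‖ ^ 2 ≤ 1} ∩ ({l : ℂ | rexp (s + 2 * l.re) ^ 2 + 1 ≤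
        4 * rexp (s + 2 * l.re)} ∩ {l | l.im ≤ (n + 1) ^ 2})) 
        (fun l hl => by
          have := ΦO.1 hl.1
          have b : l.im < (n + 1) ^ 2 := hl.2
          exact ⟨this.1.le, this.2.le, b.le⟩)
        ((isClosed_le (by fun_prop) continuous_const).inter ((isClosed_le (by fun_prop) (by fun_prop)).inter
          (isClosed_le (by fun_prop) continuous_const))) hl
      exact ⟨ΦΩ (by rw [Complex.re_ofReal_mul]; positivity) this.1 this.2.1, lo l this.1, this.2.2⟩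
    have oU : IsOpen U := (Oo.preimage dγ.continuous).inter (isOpen_lt Complex.continuous_im continuous_const)
    have := Complex.norm_le_of_forall_mem_frontier_norm_le (U := U)
      (f := fun l => f (γ l) * Complex.exp (((n + 1 : ℝ)⁻¹ : ℝ) * l * I)) (isBounded_iff_forall_norm_le.2
        ⟨(|s| + 4) + (‖ζ‖⁻¹ + (n + 1) ^ 2), fun l hl => ?_⟩) (DifferentiableOn.diffContOnCl
        ((df.comp dγ.differentiableOn fun l hl => (cl hl).1).mul (by fun_prop)))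
      (C := max (max m 0 * rexp ((n + 1 : ℝ)⁻¹ * ‖ζ‖⁻¹)) (M * rexp (-(n + 1)))) (fun l hl => ?_) (z := 0)
      (subset_closure ⟨by simpa [γ] using ho, by simpa using pow_pos n1 2⟩)
    · simpa using this
    · have a := (ΦO.1 hl.1).2
      have b := cl (subset_closure hl)
      have c := add_one_le_exp (s + 2 * l.re)
      have d := add_one_le_exp (-(s + 2 * l.re))
      have e := exp_pos (s + 2 * l.re)
      have k : rexp (-(s + 2 * l.re)) ≤ 4 := by
        rw [exp_neg, inv_le_comm₀ e four_pos]; simp only at a; nlinarith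
      have k2 : rexp (s + 2 * l.re) ≤ 4 := by simp only at a; nlinarith
      have := inv_pos.2 n0
      refine (Complex.norm_le_abs_re_add_abs_im l).trans (add_le_add (abs_le.2 ⟨?_, ?_⟩) (abs_le.2 ⟨?_, ?_⟩)) <;>
        nlinarith [le_abs_self s, neg_abs_le s, b.2.1, b.2.2, sq_nonneg (n + 1 : ℝ), abs_nonneg s]
    · obtain ⟨a, b, c⟩ := cl hl.1
      rw [norm_mul, Complex.norm_exp, Complex.mul_I_re, Complex.im_ofReal_mul, ← mul_neg]
      rcases c.eq_or_lt with c | c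
      · refine le_max_of_le_right (mul_le_mul (hM _ a) (le_of_eq ?_) (exp_pos _).le ((norm_nonneg _).trans (hM _ a)))
        rw [c]; congr 1; field_simp
      · refine le_max_of_le_left (mul_le_mul ((hm _ a fun k => hl.2 (oU.interior_eq.symm ▸ ⟨k, c⟩)).trans
          (le_max_left _ _)) (by gcongr) (exp_pos _).le (le_max_right _ _))
  have t1 : Tendsto (fun n : ℕ => (n + 1 : ℝ)) atTop atTop := tendsto_natCast_atTop_atTop.atTop_add tendsto_const_nhds
  have := ge_of_tendsto' ((((t1.inv_tendsto_atTop.mul_const ‖ζ‖⁻¹).rexp).const_mul (max m 0)).max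
    ((tendsto_exp_neg_atTop_nhds_zero.comp t1).const_mul M)) key
  simpa [γ] using this

lemma bdry : IsClosed (closure Ω \ O) ∧ closure Ω \ O ⊆ closure Ω ∧ ∀ f : E → ℂ, ContinuousOn f (closure Ω) →
    DifferentiableOn ℂ f Ω → ∃ k ∈ closure Ω \ O, ∀ z ∈ closure Ω, ‖f z‖ ≤ ‖f k‖ := by
  have c := Ωb.isCompact_closure
  refine ⟨isClosed_closure.sdiff Oo, sdiff_subset, fun f cf df => ?_⟩
  obtain ⟨k, hk, h⟩ := (c.diff Oo).exists_isMaxOn ⟨Φ ((1, 0), 0), subset_closure (ΦΩ (by simp) (by simp) (by norm_num)),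
    fun h => by simpa using (ΦO.1 h).1⟩ (cf.mono sdiff_subset).norm
  obtain ⟨M, hM⟩ := c.exists_bound_of_continuousOn cf
  refine ⟨k, hk, le_on_closure (fun p hp => ?_) cf.norm continuousOn_const⟩
  by_cases o : p ∈ O
  · simpa using shilov df (fun p hp => hM p (subset_closure hp)) (fun p hp o => h ⟨subset_closure hp, o⟩) p hp o
  · exact h ⟨subset_closure hp, o⟩

lemma ident {U : Set E} (ho : IsOpen U) (hc : IsPreconnected U) {f : E → ℂ} (df : DifferentiableOn ℂ f U) {p : E}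
    (hp : p ∈ U) (h : ∀ᶠ q in 𝓝 p, f q = 0) : ∀ q ∈ U, f q = 0 := fun q hq => by
  refine Eventually.self_of_nhds (p := fun x => f x = 0) (hc.subset_of_closure_inter_subset (u := {q | ∀ᶠ x in 𝓝 q, f x = 0})
    isOpen_setOfPred_eventually_nhds ⟨p, hp, h⟩ (fun a ha => ?_) hq)
  obtain ⟨r, r0, s⟩ := Metric.isOpen_iff.1 ho a ha.2
  obtain ⟨b, hb, k⟩ := mem_closure_iff.1 ha.1 _ isOpen_ball (mem_ball_self r0)
  filter_upwards [ball_mem_nhds a r0] with x hx
  have cv : Convex ℝ ((fun l : ℂ => b + l • (x - b)) ⁻¹' ball a r) := fun u hu v hv s t s0 t0 e => by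
    convert convex_ball a r hu hv s0 t0 e using 1
    rw [mem_preimage, show t = 1 - s by linarith]
    congr! 1
    simp only [← Complex.coe_smul, smul_eq_mul]; push_cast; module
  have := AnalyticOnNhd.eqOn_zero_of_preconnected_of_eventuallyEq_zero (f := fun l : ℂ => f (b + l • (x - b)))
    ((df.comp (f := fun l : ℂ => b + l • (x - b)) (by fun_prop) fun l hl => s hl).analyticOnNhd (isOpen_ball.preimage (by fun_prop))) cv.isPreconnected
    (z₀ := 0) (show b + (0 : ℂ) • (x - b) ∈ ball a r by simpa) (Tendsto.eventually (Continuous.tendsto' (by fun_prop) _ _ (by simp)) k) 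
    (x := 1) (show b + (1 : ℂ) • (x - b) ∈ ball a r by simpa)
  simpa using this

lemma zero1 {F : ℂ → ℂ} {c : ℂ} {r : ℝ} (r0 : 0 < r) (d : DifferentiableOn ℂ F (ball c r)) {γ : ℝ → ℂ}
    (cγ : Continuous γ) (e : γ 0 = c) (h : ∀ᶠ t in 𝓝[>] 0, γ t ≠ c ∧ F (γ t) = 0) : ∀ z ∈ ball c r, F z = 0 :=
  (d.analyticOnNhd isOpen_ball).eqOn_zero_of_preconnected_of_frequently_eq_zero (convex_ball c r).isPreconnected
    (mem_ball_self r0) ((tendsto_nhdsWithin_iff.2 ⟨(cγ.tendsto' _ _ e).mono_left nhdsWithin_le_nhds,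
      h.mono fun _ k => k.1⟩).frequently (h.mono fun _ k => k.2).frequently)

lemma circ {z : ℂ} (θ : ℝ) (h : 0 < z.re) (h1 : ‖z‖ ≤ 1) : ![z, Complex.exp (θ * I)] ∈ Ω := by
  simpa [Φ] using ΦΩ (q := ((z, 0), θ)) h (pow_le_one₀ (norm_nonneg _) h1) (by norm_num)

lemma uniq {f : E → ℂ} (df : DifferentiableOn ℂ f Ω) {M : ℝ} (hM : ∀ p ∈ Ω, ‖f p‖ ≤ M) (hV : ∀ v ∈ V, f v = 0) :
    ∀ p ∈ Ω, f p = 0 := by
  have dz (w : ℂ) : Differentiable ℂ fun z : ℂ => (![z, w] : E) :=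
    differentiable_pi.2 (Fin.forall_fin_two.2 ⟨by simp, by simp⟩)
  have dw (z : ℂ) : Differentiable ℂ fun w : ℂ => (![z, w] : E) :=
    differentiable_pi.2 (Fin.forall_fin_two.2 ⟨by simp, by simp⟩)
  have s1 (θ c : ℝ) (c0 : 1 / 4 ≤ c) (c1 : c ≤ 1 / 2) : f ![c, Complex.exp (θ * I)] = 0 := by
    have m (u : ℂ) (hu : u ∈ ball (0 : ℂ) 1) : ![c * (1 + u), Complex.exp (θ * I)] ∈ Ω := by
      have n := mem_ball_zero_iff.1 hu
      have := (abs_lt.1 ((Complex.abs_re_le_norm u).trans_lt n)).1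
      refine circ θ (by rw [Complex.re_ofReal_mul]; exact mul_pos (by linarith) (by simp; linarith)) ?_
      have := norm_add_le 1 u
      rw [norm_mul, Complex.norm_real, norm_of_nonneg (by linarith)]
      rw [norm_one] at this
      nlinarith [norm_nonneg (1 + u)]
    by_contra k
    have M0 : 0 < M := (norm_pos_iff.2 k).trans_le (hM _ (by simpa using m 0 (by simp)))
    obtain ⟨N, hN⟩ := ((tendsto_sum_range_one_div_nat_succ_atTop.atTop_div_const four_pos).eventually_gt_atTop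
      (-log ‖f ![c * (1 + 0), Complex.exp (θ * I)] / M‖)).exists
    have a (j : ℕ) : 0 < ((j + 2 : ℕ) + 2 : ℝ)⁻¹ / c ∧ ((j + 2 : ℕ) + 2 : ℝ)⁻¹ / c ≤ 1 ∧
        1 / (j + 1) / 4 ≤ ((j + 2 : ℕ) + 2 : ℝ)⁻¹ / c := by
      have := j.cast_nonneg (α := ℝ)
      have : 0 < c := by linarith
      push_cast
      refine ⟨by positivity, ?_, ?_⟩ <;> field_simp <;> nlinarith
    have nr (j : ℕ) : ‖((((j + 2 : ℕ) + 2 : ℝ)⁻¹ / c - 1 : ℝ) : ℂ)‖ = 1 - ((j + 2 : ℕ) + 2 : ℝ)⁻¹ / c := by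
      rw [Complex.norm_real, norm_eq_abs, abs_of_nonpos (by linarith [(a j).2.1]), neg_sub]
    have := MP_c109b8_an.blas_sum (fun u => f ![c * (1 + u), Complex.exp (θ * I)] / M)
      ((df.comp ((dz _).comp (by fun_prop)).differentiableOn m).div_const _)
      (fun u hu => by rw [norm_div, Complex.norm_real, norm_of_nonneg M0.le, div_le_one M0]; exact hM _ (m u hu))
      (by simpa [M0.ne'] using k) ((Finset.range N).image fun j => ((((j + 2 : ℕ) + 2 : ℝ)⁻¹ / c - 1 : ℝ) : ℂ)) (by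
        simp only [Finset.forall_mem_image]
        intro j _
        have b : _ < (1 : ℝ) := (nr j).trans_lt (sub_lt_self _ (a j).1)
        refine ⟨b, div_eq_zero_iff.2 (.inl (hV _ ⟨m _ (mem_ball_zero_iff.2 b), Vm.2 ⟨j + 2, ?_⟩⟩))⟩
        have : (c : ℂ) ≠ 0 := Complex.ofReal_ne_zero.2 (by linarith)
        simp only [Matrix.cons_val_zero]; push_cast; field_simp; ring)
    rw [Finset.sum_image fun i _ j _ e => by simpa [show c ≠ 0 by linarith] using Complex.ofReal_injective e] at this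
    refine (hN.trans_le ?_).not_ge this
    rw [Finset.sum_div]
    exact Finset.sum_le_sum fun j _ => by rw [nr]; linarith [(a j).2.2]
  have p0 : (![(1 / 4 : ℝ), 1] : E) ∈ Ω := by simpa using circ (z := (1 / 4 : ℝ)) 0 (by simp) (by norm_num)
  obtain ⟨r, r0, hr⟩ := Metric.isOpen_iff.1 Ωo _ p0
  have bl (z w : ℂ) (hz : z ∈ ball ((1 / 4 : ℝ) : ℂ) r) (hw : w ∈ ball 1 r) : ![z, w] ∈ Ω :=
    hr ((dist_pi_lt_iff r0).2 (Fin.forall_fin_two.2 ⟨hz, hw⟩))
  refine ident Ωo Ωc.isPreconnected df p0 (mem_of_superset (ball_mem_nhds _ r0) fun q hq => ?_)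
  have hq := (dist_pi_lt_iff r0).1 hq
  have := zero1 r0 (df.comp (dw (q 0)).differentiableOn fun w hw => bl _ w (hq 0) hw)
    (γ := fun t => Complex.exp (t * I)) (by fun_prop) (by simp) ?_ (q 1) (hq 1)
  · rw [show q = ![q 0, q 1] from funext (Fin.forall_fin_two.2 ⟨rfl, rfl⟩)]; exact this
  have t : Tendsto (fun t : ℝ => Complex.exp (t * I)) (𝓝[>] 0) (𝓝 1) :=
    (Continuous.tendsto' (by fun_prop) _ _ (by simp)).mono_left nhdsWithin_le_nhds
  filter_upwards [Ioo_mem_nhdsGT pi_pos, t.eventually (ball_mem_nhds _ r0)] with t ht hw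
  refine ⟨fun e => (sin_pos_of_pos_of_lt_pi ht.1 ht.2).ne' (by
    simpa [Complex.exp_ofReal_mul_I_im] using congrArg Complex.im e), zero1 r0
    (df.comp (dz _).differentiableOn fun z hz => bl z _ hz hw) (γ := fun s => (1 / 4 + s : ℝ)) (by fun_prop) (by simp) ?_
    (q 0) (hq 0)⟩
  filter_upwards [Ioo_mem_nhdsGT (show (0 : ℝ) < 1 / 4 by norm_num)] with s hs
  exact ⟨fun e => hs.1.ne' (by linarith [Complex.ofReal_injective e]), s1 t _ (by linarith [hs.1]) (by linarith [hs.2])⟩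

end Pool.Agent.H.MP_4c8440_an
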